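import Pool.Agent.H45.Rdv

open MeasureTheory Set
open scoped ENNReal NNReal

namespace Pool.Agent.Results.MP_925b40_pr.Undirected

/-- Meeting time of two paths on the circle (infinite if they never meet). -/
noncomputable def meet (p q : ℝ≥0 → UnitAddCircle) : ℝ≥0∞ :=
  ⨅ (τ : ℝ≥0) (_ : p τ = q τ), (τ : ℝ≥0∞)

/-- Expected meeting time on the undirected circle (group `G₃`). -/
noncomputable def That (s₁ s₂ : ℝ≥0 → UnitAddCircle) : ℝ≥0∞ :=
  2⁻¹ * ((∫⁻ a : UnitAddCircle, meet (fun τ => a + s₁ τ) s₂) +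
    ∫⁻ a : UnitAddCircle, meet (fun τ => a + s₁ τ) fun τ => -s₂ τ)

/-- The coin-half-tour path for the coin sequence `ω`. -/
noncomputable def cohato (ω : ℕ → Bool) (τ : ℝ≥0) : UnitAddCircle :=
  (((∑ j ∈ Finset.range ⌊2 * (τ : ℝ)⌋₊, (if ω j then (1 / 2 : ℝ) else -1 / 2)) +
    (if ω ⌊2 * (τ : ℝ)⌋₊ then (1 : ℝ) else -1) * ((τ : ℝ) - (⌊2 * (τ : ℝ)⌋₊ : ℝ) / 2) : ℝ) :
      UnitAddCircle)

/-- Independent fair coins. -/
noncomputable def coins : Measure (ℕ → Bool) :=
  Measure.infinitePi fun _ : ℕ => (PMF.uniformOfFintype Bool).toMeasure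

open H45.Rdv

def neg : (ℕ → Bool) ≃ᵐ (ℕ → Bool) where
  toFun ω j := !ω j
  invFun ω j := !ω j
  left_inv ω := by simp
  right_inv ω := by simp
  measurable_toFun := measurable_pi_lambda _ fun j =>
    (measurable_from_top (f := not)).comp (measurable_pi_apply j)
  measurable_invFun := measurable_pi_lambda _ fun j =>
    (measurable_from_top (f := not)).comp (measurable_pi_apply j)

lemma lint_neg (F : (ℕ → Bool) → ℝ≥0∞) : ∫⁻ ω, F (fun j => !ω j) ∂coin = ∫⁻ ω, F ω ∂coin := by
  have : coin.map neg = coin := by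
    refine (Measure.infinitePi_map_pi _ (f := fun _ => not) fun _ => measurable_from_top).trans ?_
    congr 1
    funext i
    refine Measure.ext_of_singleton fun b => ?_
    rw [Measure.map_apply measurable_from_top (measurableSet_singleton _),
      show not ⁻¹' {b} = {!b} by ext x; cases x <;> cases b <;> simp]
    simp
  conv_rhs => rw [← this, lintegral_map_equiv]
  rfl

lemma path_neg (i : Fin 10) (ω : ℕ → Bool) (τ : ℝ≥0) :
    -path (σ i ω) τ = path (σ (i + 5) fun j => !ω j) τ := by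
  have h : ∀ j, σ (i + 5) (fun j => !ω j) j = !σ i ω j := fun j => by
    unfold σ; split_ifs with h
    · revert i; interval_cases j <;> decide
    · rfl
  change -((P _ _ : ℝ) : UnitAddCircle) = (P _ _ : ℝ)
  rw [← AddCircle.coe_neg, P, P, ← intervalIntegral.integral_neg]
  congr 2
  funext s
  rw [sl, sl, h]
  cases σ i ω _ <;> simp

noncomputable def v (i i' : Fin 10) : ℝ≥0∞ :=
  ((if i = i' then 18 else kf 0 i i' + kf 1 i i' + 1 : ℕ) : ℝ≥0∞) / 8

lemma pair (i i' ω) : ∫⁻ ω', That (path (σ i ω)) (path (σ i' ω')) ∂coin ≤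
    2⁻¹ * (v i i' + v i (i' + 5)) := by
  simp only [That, path_neg]
  rw [lintegral_const_mul' _ _ (by simp)]
  refine mul_le_mul_right ?_ _
  change ∫⁻ ω', ((∫⁻ a, T (path (σ i ω)) (path (σ i' ω')) a) +
    ∫⁻ a, T (path (σ i ω)) (path (σ (i' + 5) fun j => !ω' j)) a) ∂coin ≤ _
  by_cases h : i = i' + 5
  · have h' : i ≠ i' := by subst h; revert i'; decide
    refine (lintegral_mono fun ω' => add_le_add_left (ne_le h' ω ω') _).trans ?_
    rw [lintegral_add_left measurable_const, lintegral_const, measure_univ, mul_one, v, v,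
      if_neg h', if_pos h, lint_neg fun ω' => ∫⁻ a, T (path (σ i ω)) (path (σ (i' + 5) ω')) a, ← h]
    exact add_le_add_right (eq_le i ω) _
  · refine (lintegral_mono fun ω' => add_le_add_right (ne_le h ω _) _).trans ?_
    rw [lintegral_add_right _ measurable_const, lintegral_const, measure_univ, mul_one, v, v,
      if_neg h]
    refine add_le_add_left ?_ _
    split_ifs with h'
    · subst h'; exact eq_le i ω
    · exact (lintegral_mono fun ω' => ne_le h' ω ω').trans (by simp)

theorem result : ∃ μ : @Measure C(ℝ≥0, UnitAddCircle) (borel _), IsProbabilityMeasure μ ∧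
    (∀ᵐ (f : C(ℝ≥0, UnitAddCircle)) ∂μ, LipschitzWith 1 (⇑f) ∧ f 0 = 0) ∧
    ∫⁻ f : C(ℝ≥0, UnitAddCircle), ∫⁻ g : C(ℝ≥0, UnitAddCircle), That f g ∂μ ∂μ <
      ∫⁻ ω₁, ∫⁻ ω₂, That (cohato ω₁) (cohato ω₂) ∂coins ∂coins := by
  refine ⟨μ, inferInstance, μ_ae, lt_of_le_of_lt (b := ENNReal.ofReal (598 / 800)) ?_
    (lt_of_lt_of_le (b := ENNReal.ofReal (383 / 512)) ?_ ?_)⟩
  · refine (μ_le _ (fun i => 10⁻¹ * ∑ i', 2⁻¹ * (v i i' + v i (i' + 5))) fun i =>
      (lintegral_mono fun ω => μ_le _ _ fun i' => pair i i' ω).trans (by simp)).trans (le_of_eq ?_)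
    have : ∀ i, ∑ i', 2⁻¹ * (v i i' + v i (i' + 5)) = ∑ i', v i i' := fun i => by
      rw [← Finset.mul_sum, Finset.sum_add_distrib,
        show ∑ i', v i (i' + 5) = _ from Equiv.sum_comp (Equiv.addRight (5 : Fin 10)) (v i),
        ← two_mul, ← mul_assoc,
        ENNReal.inv_mul_cancel (by simp) (by simp), one_mul]
    simp only [this]
    simp only [v, div_eq_mul_inv, ← Finset.sum_mul, ← Finset.mul_sum, ← Nat.cast_sum, kf_sum]
    rw [ENNReal.ofReal_mul (by norm_num), ENNReal.ofReal_inv_of_pos (by norm_num)]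
    simp only [ENNReal.ofReal_ofNat, Nat.cast_ofNat]
    rw [show (800 : ℝ≥0∞) = 10 * (10 * 8) by norm_num, ENNReal.mul_inv (by simp) (by simp),
      ENNReal.mul_inv (by simp) (by simp)]
    ring
  · rw [ENNReal.ofReal_lt_ofReal_iff (by norm_num)]; norm_num
  · refine le_trans (by simp) (lintegral_mono (μ := coin) (f := fun _ => ENNReal.ofReal (383 / 512))
      fun ω => ?_)
    simp only [That]
    rw [lintegral_const_mul' _ _ (by simp)]
    refine le_trans (le_of_eq ?_) (mul_le_mul_right ((add_le_add (lower ω) ((lower ω).trans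
      (le_of_eq ?_))).trans (le_lintegral_add _ _)) _)
    · rw [← two_mul, ← mul_assoc, ENNReal.inv_mul_cancel (by simp) (by simp), one_mul]
    · refine (lint_neg _).symm.trans (lintegral_congr fun ω' => lintegral_congr fun a => ?_)
      have : ∀ τ : ℝ≥0, ((c (fun j => !ω' j) τ : ℝ) : UnitAddCircle) = -cohato ω' τ := fun τ => by
        rw [cohato, ← AddCircle.coe_neg, c, neg_add, ← Finset.sum_neg_distrib, ← neg_mul]
        congr 3
        · funext j; cases ω' j <;> norm_num
        · cases ω' _ <;> simp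
      simp only [this]; rfl

end Pool.Agent.Results.MP_925b40_pr.Undirected
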